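import Pool.Agent.H57.EQD.Defs
import Pool.Agent.H57.EQ.Targets

/-!
# Structures over directed edge-coloured graphs with free amalgamation: targets
-/

set_option autoImplicit false

namespace Pool.Agent.H57.EQD

open Pool.Agent.H68.BP Pool.Agent.H58.SF Pool.Agent.H53.GC
open Pool.Agent.H57.EQ (Uni TyInv Cx ConstHom Same Olm Tour injS cD Blk)
open Function

/-! ### Universality -/

/-- systems of points with copied colours -/
def T_SYS : Prop :=
  ∀ (σ : Sig) (V X : Type) [LinearOrder V] (𝔸 : Str σ V) (M : ℕ) (c : V → V → Option X) (fr : X)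
    (rv : X → X), Stp 𝔸 M c fr rv → ∀ (W : Type) [LinearOrder W] [Finite W] (u : W → V)
      (r : W → W → Prop), (∀ n n', r n n' → r n' n) → ∃ e : W → V, StrictMono e ∧ ∀ n n', n ≠ n' →
        (r n n' → u n ≠ u n' → c (e n) (e n') = c (u n) (u n')) ∧
        (¬ (r n n' ∧ u n ≠ u n') → c (e n) (e n') = some fr)

/-- realization -/
def T_REA : Prop :=
  ∀ (σ : Sig) (V X : Type) [LinearOrder V] (𝔸 : Str σ V) (M : ℕ) (c : V → V → Option X) (fr : X)
    (rv : X → X), Stp 𝔸 M c fr rv → ∀ (W : Type) [Finite W] (q : W → W → Option X),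
      (∀ s : Fin M → W, ∃ v : Fin M → V, ∀ a b, c (v a) (v b) = q (s a) (s b)) →
      ∃ ψ : W → V, ∀ u w, c (ψ u) (ψ w) = q u w

/-- The injective part is a structure of the kind of the table GC. -/
def T_CPS : Prop :=
  ∀ (σ : Sig) (V X : Type) [LinearOrder V] (𝔸 : Str σ V) (M : ℕ) (c : V → V → Option X) (fr : X)
    (rv : X → X), Stp 𝔸 M c fr rv →
      Setup (injS 𝔸) M (cD c fr) (fun _ _ => fr) (fun _ => fr) (fun _ => fr)

/-! ### The injective part -/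

/-- systems of blocks -/
def T_BKS : Prop :=
  ∀ (σ : Sig) (V X : Type) [LinearOrder V] (𝔸 : Str σ V) (M : ℕ) (c : V → V → Option X) (fr : X)
    (rv : X → X), Stp 𝔸 M c fr rv → ∀ h, Olm 𝔸 c h → ∃ h', Blk c h h'

/-- the map on pairs for the injective part -/
def T_BKG : Prop :=
  ∀ (σ : Sig) (V X : Type) [LinearOrder V] (𝔸 : Str σ V) (M : ℕ) (c : V → V → Option X) (fr : X)
    (rv : X → X), Stp 𝔸 M c fr rv → ∀ h h', Olm 𝔸 c h →
      (∀ z z' : Fin 6 → V, (∀ l l', z l ≠ z' l') → h z z' ≠ none) → Blk c h h' →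
      GoodMap (injS 𝔸) M (cD c fr) (fun v w => (h' v w).getD fr)

/-- cyclic functions for the injective part -/
def T_DDX : Prop :=
  ∀ (σ : Sig) (V X : Type) [LinearOrder V] (𝔸 : Str σ V) (M : ℕ) (c : V → V → Option X) (fr : X)
    (rv : X → X), Stp 𝔸 M c fr rv → ∀ (p : ℕ) (H : (ZMod p → X × Bool) → X × Bool),
      IsPoly (template (injS 𝔸) M (cD c fr)) (template (injS 𝔸) M (cD c fr)) H →
      (∀ x, H (fun i => x (i + 1)) = H x) → Dd 𝔸 c p (fun q => (H (fun i => (q i, false))).1)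

/-! ### The template -/

/-- the binary polymorphism of the template (helper44) -/
def T_GPO : Prop :=
  ∀ (σ : Sig) (V X : Type) [LinearOrder V] (𝔸 : Str σ V) (M : ℕ) (c : V → V → Option X) (fr : X)
    (rv : X → X), Stp 𝔸 M c fr rv → ∀ h, Olm 𝔸 c h → ¬ ConstHom 𝔸 → DdAll 𝔸 c →
      ∃ g : (Fin 2 → Ec X) → Ec X, IsPoly (tpl 𝔸 M c) (tpl 𝔸 M c) g ∧
        ∀ z, g z = none ↔ ∀ i, z i = none

/-- the cyclic polymorphism of the template -/
def T_CYP : Prop :=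
  ∀ (σ : Sig) (V X : Type) [LinearOrder V] (𝔸 : Str σ V) (M : ℕ) (c : V → V → Option X) (fr : X)
    (rv : X → X), Stp 𝔸 M c fr rv → ∀ (p : ℕ) (f : (ZMod p → X) → X), p.Prime → 2 < p →
      Dd 𝔸 c p f → ∀ G : (ZMod p → Ec X) → Ec X, IsPoly (tpl 𝔸 M c) (tpl 𝔸 M c) G →
        (∀ z, G z = none ↔ ∀ i, z i = none) →
        ∃ u : (ZMod p → Ec X) → Ec X, IsPoly (tpl 𝔸 M c) (tpl 𝔸 M c) u ∧
          ∀ z, u (fun i => z (i + 1)) = u z

/-- Blocks which have no common vertices are not identified. (helper44) -/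
def T_NNC : Prop :=
  ∀ (σ : Sig) (V X : Type) [LinearOrder V] (𝔸 : Str σ V) (M : ℕ) (c : V → V → Option X) (fr : X)
    (rv : X → X), Stp 𝔸 M c fr rv → ∀ h, Olm 𝔸 c h → ¬ ConstHom 𝔸 →
      ∀ z z' : Fin 6 → V, (∀ l l', z l ≠ z' l') → h z z' ≠ none

/-- the canonical Olšák map (helper44) -/
def T_NOL : Prop :=
  ∀ (σ : Sig) (V X : Type) [LinearOrder V] (𝔸 : Str σ V) (M : ℕ) (c : V → V → Option X) (fr : X)
    (rv : X → X), Stp 𝔸 M c fr rv → Oligo 𝔸 → ¬ PPConstructsK3 𝔸 → ∃ h, Olm 𝔸 c h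

/-! ### The reduction (helper50) -/

/-- correctness of the reduction -/
def T_RE1 : Prop :=
  ∀ (σ : Sig) (V X : Type) [LinearOrder V] (𝔸 : Str σ V) (M : ℕ) (c : V → V → Option X) (fr : X)
    (rv : X → X), Stp 𝔸 M c fr rv → ∀ (n : ℕ) (𝕏 : Str σ (Fin n)), (∃ f, IsHom 𝕏 𝔸 f) ↔
      ∃ q : Fin n → Fin n → Ec X,
        ∀ (s : Option (Fin σ.m)) (y : Fin (arP σ M s) → Fin n), relP 𝕏 M s y →
          FamP 𝔸 M c s (fun e => q (y e.1) (y e.2))

/-- the reduction -/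
def T_RED : Prop :=
  ∀ (σ : Sig) (V X : Type) [LinearOrder V] (𝔸 : Str σ V) (M : ℕ) (c : V → V → Option X) (fr : X)
    (rv : X → X), Stp 𝔸 M c fr rv → N793a5b8e.ManyOneReducible (CSP 𝔸) (CSP (tpl 𝔸 M c))

end Pool.Agent.H57.EQD
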