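import Pool.Agent.H57.EQD.Uv

/-!
# Directed colours: systems of blocks
-/

set_option autoImplicit false
set_option linter.unusedVariables false

namespace Pool.Agent.H57.EQD

open Pool.Agent.H68.BP Pool.Agent.H58.SF Pool.Agent.H53.GC Pool.Agent.H53.NR
open Pool.Agent.H57.EQ (Uni TyInv Cx ConstHom Same Olm Tour injS cD Blk SI sigI)
open Function

theorem pat_ex {V : Type} (r : Fin 3) (x y x' y' s t : V) :
    (∃ l, pat r x y l = s ∧ pat r x' y' l = t) ↔ (x = s ∧ x' = t) ∨ (y = s ∧ y' = t) := by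
  constructor
  · rintro ⟨l, h1, h2⟩
    fin_cases r <;> fin_cases l <;>
      first
        | exact Or.inl ⟨h1, h2⟩
        | exact Or.inr ⟨h1, h2⟩
  · rintro (⟨h1, h2⟩ | ⟨h1, h2⟩)
    · fin_cases r
      · exact ⟨0, h1, h2⟩
      · exact ⟨0, h1, h2⟩
      · exact ⟨1, h1, h2⟩
    · fin_cases r
      · exact ⟨2, h1, h2⟩
      · exact ⟨1, h1, h2⟩
      · exact ⟨0, h1, h2⟩

theorem pat_inj2 {V : Type} {r r' : Fin 3} {x y x' y' : V} (hxy : x ≠ y)
    (h : pat r x y = pat r' x' y') : r = r' ∧ x = x' ∧ y = y' := by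
  have h0 := congrFun h 0
  have h1 := congrFun h 1
  have h2 := congrFun h 2
  have h3 := congrFun h 3
  have h4 := congrFun h 4
  have h5 := congrFun h 5
  fin_cases r <;> fin_cases r' <;> simp [pat] at h0 h1 h2 h3 h4 h5 <;> grind

section

variable {V X : Type}

open Classical in
/-- the block without the order of the pattern -/
noncomputable def beta (v : Fin 6 → V) : Fin 6 → V :=
  if h : ∃ z : V × V, z.1 ≠ z.2 ∧ ∃ r : Fin 3, v = pat r z.1 z.2 then
    pat 0 h.choose.1 h.choose.2 else v

open Classical in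
/-- the order of the pattern -/
noncomputable def rho (v : Fin 6 → V) : Fin 3 :=
  if h : ∃ r : Fin 3, ∃ z : V × V, z.1 ≠ z.2 ∧ v = pat r z.1 z.2 then h.choose else 0

theorem beta_pat (r : Fin 3) (x y : V) : beta (pat r x y) = pat 0 x y := by
  unfold beta
  split
  · next h =>
    obtain ⟨h1, r', h2⟩ := h.choose_spec
    obtain ⟨-, h3, h4⟩ := pat_inj2 h1 h2.symm
    rw [h3, h4]
  · next h =>
    by_cases hxy : x = y
    · subst hxy
      fin_cases r <;> (funext l; fin_cases l <;> rfl)
    · exact absurd ⟨(x, y), hxy, r, rfl⟩ h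

theorem rho_pat {r : Fin 3} {x y : V} (hxy : x ≠ y) : rho (pat r x y) = r := by
  unfold rho
  split
  · next h =>
    obtain ⟨z, h1, h2⟩ := h.choose_spec
    exact (pat_inj2 h1 h2.symm).1
  · next h => exact absurd ⟨r, (x, y), hxy, rfl⟩ h

theorem rho_const (r r' : Fin 3) (x : V) : rho (pat r x x) = rho (pat r' x x) := by
  have h : pat r x x = pat r' x x := by
    funext l
    fin_cases r <;> fin_cases r' <;> fin_cases l <;> rfl
  rw [h]

theorem br_inj {v w : Fin 6 → V} (h1 : beta v = beta w) (h2 : rho v = rho w) : v = w := by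
  by_cases hv : ∃ z : V × V, z.1 ≠ z.2 ∧ ∃ r : Fin 3, v = pat r z.1 z.2
  · obtain ⟨z, hz, r, rfl⟩ := hv
    rw [beta_pat] at h1
    rw [rho_pat hz] at h2
    by_cases hw : ∃ z : V × V, z.1 ≠ z.2 ∧ ∃ r : Fin 3, w = pat r z.1 z.2
    · obtain ⟨z', hz', r', rfl⟩ := hw
      rw [beta_pat] at h1
      rw [rho_pat hz'] at h2
      obtain ⟨-, h3, h4⟩ := pat_inj2 hz h1
      rw [h2, h3, h4]
    · have h3 : beta w = w := dif_neg hw
      rw [h3] at h1
      exact absurd ⟨z, hz, 0, h1.symm⟩ hw
  · have h3 : beta v = v := dif_neg hv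
    by_cases hw : ∃ z : V × V, z.1 ≠ z.2 ∧ ∃ r : Fin 3, w = pat r z.1 z.2
    · obtain ⟨z', hz', r', rfl⟩ := hw
      rw [beta_pat, h3] at h1
      exact absurd ⟨z', hz', 0, h1⟩ hv
    · have h4 : beta w = w := dif_neg hw
      rw [h3, h4] at h1
      exact h1

/-- the names of the points of the blocks -/
abbrev Nm (V : Type) : Type := (Fin 6 → V) × V

open Classical in
/-- the colour of a pair of names -/
noncomputable def colN (c : V → V → Option X) (fr : X) (n n' : Nm V) : Option X :=
  if (∃ l, n.1 l = n.2 ∧ n'.1 l = n'.2) ∧ n.2 ≠ n'.2 then c n.2 n'.2 else some fr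

theorem colN_pat (c : V → V → Option X) (fr : X) (r : Fin 3) (x y x' y' s t : V) :
    colN c fr (pat r x y, s) (pat r x' y', t) = colN c fr (pat 0 x y, s) (pat 0 x' y', t) := by
  have h : (∃ l, pat r x y l = s ∧ pat r x' y' l = t) ↔
      ∃ l, pat 0 x y l = s ∧ pat 0 x' y' l = t :=
    (pat_ex r x y x' y' s t).trans (pat_ex 0 x y x' y' s t).symm
  unfold colN
  by_cases h2 : (∃ l, pat r x y l = s ∧ pat r x' y' l = t) ∧ s ≠ t
  · have h3 : (∃ l, pat 0 x y l = s ∧ pat 0 x' y' l = t) ∧ s ≠ t := ⟨h.1 h2.1, h2.2⟩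
    exact (if_pos h2).trans (if_pos h3).symm
  · have h3 : ¬ ((∃ l, pat 0 x y l = s ∧ pat 0 x' y' l = t) ∧ s ≠ t) :=
      fun h4 => h2 ⟨h.2 h4.1, h4.2⟩
    exact (if_neg h2).trans (if_neg h3).symm

/-- the key of a name -/
noncomputable def key (code : (Fin 6 → V) → ℕ) (n : Nm V) : ℕ ×ₗ (Fin 3 ×ₗ V) :=
  toLex (code (beta n.1), toLex (rho n.1, n.2))

theorem key_inj {code : (Fin 6 → V) → ℕ} (hc : Injective code) : Injective (key code) := by
  intro n n' h
  have h1 : (code (beta n.1), toLex (rho n.1, n.2)) = (code (beta n'.1), toLex (rho n'.1, n'.2)) :=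
    h
  rw [Prod.mk.injEq] at h1
  have h2 : (rho n.1, n.2) = (rho n'.1, n'.2) := h1.2
  rw [Prod.mk.injEq] at h2
  exact Prod.ext (br_inj (hc h1.1) h2.1) h2.2

theorem key_pat [LinearOrder V] {code : (Fin 6 → V) → ℕ} (hc : Injective code) (r : Fin 3)
    (x y x' y' s t : V) : key code (pat r x y, s) < key code (pat r x' y', t) ↔
      code (pat 0 x y) < code (pat 0 x' y') ∨ (code (pat 0 x y) = code (pat 0 x' y') ∧ s < t) := by
  unfold key
  rw [Prod.Lex.toLex_lt_toLex]
  simp only [beta_pat, Prod.Lex.toLex_lt_toLex]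
  have h : code (pat 0 x y) = code (pat 0 x' y') → rho (pat r x y) = rho (pat r x' y') := by
    intro h
    have h1 := hc h
    by_cases hxy : x = y
    · subst hxy
      have h2 := congrFun h1 0
      have h3 := congrFun h1 2
      simp [pat] at h2 h3
      rw [← h2, ← h3]
    · obtain ⟨-, h3, h4⟩ := pat_inj2 hxy h1
      rw [h3, h4]
  constructor
  · rintro (h1 | ⟨h1, h2⟩)
    · exact Or.inl h1
    · rcases h2 with h2 | ⟨-, h2⟩
      · exact absurd (h h1) h2.ne
      · exact Or.inr ⟨h1, h2⟩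
  · rintro (h1 | ⟨h1, h2⟩)
    · exact Or.inl h1
    · exact Or.inr ⟨h1, Or.inr ⟨h h1, h2⟩⟩

/-- the names of the blocks in `F` -/
def Nf (F : Finset (Fin 6 → V)) (n : Nm V) : Prop := n.1 ∈ F ∧ ∃ l, n.1 l = n.2

/-- `E` realizes the names of the blocks in `F` -/
structure Rl [LinearOrder V] (c : V → V → Option X) (fr : X) (code : (Fin 6 → V) → ℕ)
    (F : Finset (Fin 6 → V)) (E : Nm V → V) : Prop where
  mono : ∀ n n', Nf F n → Nf F n' → key code n < key code n' → E n < E n'
  col : ∀ n n', Nf F n → Nf F n' → n ≠ n' → c (E n) (E n') = colN c fr n n'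

theorem rl_same [LinearOrder V] {c : V → V → Option X} {rv : X → X} (hcol : Col c rv) {fr : X}
    {code : (Fin 6 → V) → ℕ} (hc : Injective code) {F F' : Finset (Fin 6 → V)}
    {E E' : Nm V → V} (hE : Rl c fr code F E) (hE' : Rl c fr code F' E') {I : Type}
    (n n' : I → Nm V) (hn : ∀ i, Nf F (n i)) (hn' : ∀ i, Nf F' (n' i))
    (hk : ∀ i j, key code (n i) < key code (n j) ↔ key code (n' i) < key code (n' j))
    (hcc : ∀ i j, colN c fr (n i) (n j) = colN c fr (n' i) (n' j)) :
    Same c (fun i => E (n i)) (fun i => E' (n' i)) := by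
  intro i j
  rcases lt_trichotomy (key code (n i)) (key code (n j)) with h | h | h
  · have h' := (hk i j).1 h
    have h1 : n i ≠ n j := fun e => h.ne (by rw [e])
    have h2 : n' i ≠ n' j := fun e => h'.ne (by rw [e])
    exact ⟨iff_of_true (hE.mono _ _ (hn i) (hn j) h) (hE'.mono _ _ (hn' i) (hn' j) h'), by
      rw [hE.col _ _ (hn i) (hn j) h1, hE'.col _ _ (hn' i) (hn' j) h2, hcc]⟩
  · have h1 : n i = n j := key_inj hc h
    have h2 : key code (n' i) = key code (n' j) :=
      le_antisymm (not_lt.1 fun h3 => ((hk j i).2 h3).ne h.symm)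
        (not_lt.1 fun h3 => ((hk i j).2 h3).ne h)
    have h3 : n' i = n' j := key_inj hc h2
    have h4 : E (n i) = E (n j) := by rw [h1]
    have h5 : E' (n' i) = E' (n' j) := by rw [h3]
    refine ⟨iff_of_false ?_ ?_, ?_⟩
    · show ¬ E (n i) < E (n j)
      rw [h4]
      exact lt_irrefl _
    · show ¬ E' (n' i) < E' (n' j)
      rw [h5]
      exact lt_irrefl _
    · show c (E (n i)) (E (n j)) = c (E' (n' i)) (E' (n' j))
      rw [h4, h5, c_self hcol, c_self hcol]
  · have h' := (hk j i).1 h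
    have h1 : n i ≠ n j := fun e => h.ne (by rw [e])
    have h2 : n' i ≠ n' j := fun e => h'.ne (by rw [e])
    exact ⟨iff_of_false (lt_asymm (hE.mono _ _ (hn j) (hn i) h))
      (lt_asymm (hE'.mono _ _ (hn' j) (hn' i) h')), by
      rw [hE.col _ _ (hn i) (hn j) h1, hE'.col _ _ (hn' i) (hn' j) h2, hcc]⟩

theorem rl_exists {σ : Sig} [LinearOrder V] {𝔸 : Str σ V} {M : ℕ} {c : V → V → Option X} {fr : X}
    {rv : X → X} (hs : Stp 𝔸 M c fr rv) {code : (Fin 6 → V) → ℕ} (hc : Injective code)
    (F : Finset (Fin 6 → V)) : ∃ E, Rl c fr code F E := by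
  classical
  let W : Type := {n : Nm V // Nf F n}
  have hfin : Finite W := by
    have h : (Set.range fun z : F × Fin 6 => ((z.1.1, z.1.1 z.2) : Nm V)).Finite :=
      Set.finite_range _
    refine (h.subset ?_ : Set.Finite {n : Nm V | Nf F n}).to_subtype
    rintro ⟨v, a⟩ ⟨h1, l, h2⟩
    exact ⟨(⟨v, h1⟩, l), Prod.ext rfl h2⟩
  let lo : LinearOrder W := LinearOrder.lift' (fun n : W => key code n.1)
    ((key_inj hc).comp Subtype.val_injective)
  obtain ⟨e, he, hec⟩ := @pf_SYS σ V X _ 𝔸 M c fr rv hs W lo hfin (fun n => n.1.2)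
    (fun n n' => ∃ l, n.1.1 l = n.1.2 ∧ n'.1.1 l = n'.1.2)
    (fun n n' ⟨l, h1, h2⟩ => ⟨l, h2, h1⟩)
  obtain ⟨x₀, -, -⟩ := hs.col.surj fr
  refine ⟨fun n => if h : Nf F n then e ⟨n, h⟩ else x₀, ?_, ?_⟩
  · intro n n' hn hn' h
    rw [dif_pos hn, dif_pos hn']
    exact he h
  · intro n n' hn hn' h
    rw [dif_pos hn, dif_pos hn']
    obtain ⟨h1, h2⟩ := hec ⟨n, hn⟩ ⟨n', hn'⟩ (fun h' => h (congrArg Subtype.val h'))
    unfold colN
    split
    · next h3 => exact h1 h3.1 h3.2
    · next h3 => exact h2 h3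

end

theorem pf_BKS : T_BKS := by
  classical
  intro σ V X _ 𝔸 M c fr rv hs h hO
  have := hs.cnt
  obtain ⟨code, hc⟩ := exists_injective_nat (Fin 6 → V)
  choose E hE using fun F => rl_exists hs hc F
  refine ⟨fun v w => h (fun l => E {v, w} (v, v l)) (fun l => E {v, w} (w, w l)), ?_, ?_⟩
  · intro r x y x' y'
    -- the names
    let P : Bool → V × V := fun b => if b then (x', y') else (x, y)
    let nm : Fin 3 → Bool × Bool → Nm V := fun r i =>
      (pat r (P i.1).1 (P i.1).2, if i.2 then (P i.1).2 else (P i.1).1)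
    have hmem : ∀ (r : Fin 3) (i : Bool × Bool), Nf {pat r x y, pat r x' y'} (nm r i) := by
      intro r i
      refine ⟨?_, ?_⟩
      · obtain ⟨b, d⟩ := i
        cases b <;> simp [nm, P]
      · obtain ⟨l, hl, -⟩ := (pat_ex r (P i.1).1 (P i.1).2 (P i.1).1 (P i.1).2
          (if i.2 then (P i.1).2 else (P i.1).1) (if i.2 then (P i.1).2 else (P i.1).1)).2 (by
            obtain ⟨b, d⟩ := i
            cases d <;> simp)
        exact ⟨l, hl⟩
    have hS : Same c (fun i => E {pat r x y, pat r x' y'} (nm r i))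
        (fun i => E {pat 0 x y, pat 0 x' y'} (nm 0 i)) := by
      refine rl_same hs.col hc (hE _) (hE _) (nm r) (nm 0) (hmem r) (hmem 0) ?_ ?_
      · intro i j
        change key code (pat r (P i.1).1 (P i.1).2, _) < key code (pat r (P j.1).1 (P j.1).2, _) ↔
          key code (pat 0 (P i.1).1 (P i.1).2, _) < key code (pat 0 (P j.1).1 (P j.1).2, _)
        rw [key_pat hc, key_pat hc]
      · exact fun i j => colN_pat c fr r _ _ _ _ _ _
    let ι : Fin 6 ⊕ Fin 6 → Bool × Bool :=
      Sum.elim (fun l => (false, pat 0 false true l)) (fun l => (true, pat 0 false true l))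
    have hval : ∀ (r : Fin 3) (b : Bool) (l : Fin 6),
        E {pat r x y, pat r x' y'} (pat r (P b).1 (P b).2, pat r (P b).1 (P b).2 l) =
          pat r (E {pat r x y, pat r x' y'} (nm r (b, false)))
            (E {pat r x y, pat r x' y'} (nm r (b, true))) l := by
      intro r b l
      exact pat_map (fun s => E {pat r x y, pat r x' y'} (pat r (P b).1 (P b).2, s)) r
        (P b).1 (P b).2 l
    have hval2 : ∀ (r : Fin 3) (b : Bool) (l : Fin 6),
        E {pat r x y, pat r x' y'} (nm r (b, pat 0 false true l)) =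
          pat 0 (E {pat r x y, pat r x' y'} (nm r (b, false)))
            (E {pat r x y, pat r x' y'} (nm r (b, true))) l := by
      intro r b l
      exact pat_map (fun d => E {pat r x y, pat r x' y'} (nm r (b, d))) 0 false true l
    have e1 : ∀ r : Fin 3, h (fun l => E {pat r x y, pat r x' y'} (pat r x y, pat r x y l))
        (fun l => E {pat r x y, pat r x' y'} (pat r x' y', pat r x' y' l)) =
        h (fun l => E {pat r x y, pat r x' y'} (nm r (false, pat 0 false true l)))
          (fun l => E {pat r x y, pat r x' y'} (nm r (true, pat 0 false true l))) := by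
      intro r
      have h1 : (fun l => E {pat r x y, pat r x' y'} (pat r x y, pat r x y l)) =
          pat r (E {pat r x y, pat r x' y'} (nm r (false, false)))
            (E {pat r x y, pat r x' y'} (nm r (false, true))) := funext fun l => hval r false l
      have h2 : (fun l => E {pat r x y, pat r x' y'} (pat r x' y', pat r x' y' l)) =
          pat r (E {pat r x y, pat r x' y'} (nm r (true, false)))
            (E {pat r x y, pat r x' y'} (nm r (true, true))) := funext fun l => hval r true l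
      have h3 : (fun l => E {pat r x y, pat r x' y'} (nm r (false, pat 0 false true l))) =
          pat 0 (E {pat r x y, pat r x' y'} (nm r (false, false)))
            (E {pat r x y, pat r x' y'} (nm r (false, true))) := funext fun l => hval2 r false l
      have h4 : (fun l => E {pat r x y, pat r x' y'} (nm r (true, pat 0 false true l))) =
          pat 0 (E {pat r x y, pat r x' y'} (nm r (true, false)))
            (E {pat r x y, pat r x' y'} (nm r (true, true))) := funext fun l => hval2 r true l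
      rw [h1, h2, h3, h4]
      exact hO.exact r _ _ _ _
    show h (fun l => E {pat r x y, pat r x' y'} (pat r x y, pat r x y l))
        (fun l => E {pat r x y, pat r x' y'} (pat r x' y', pat r x' y' l)) =
      h (fun l => E {pat 0 x y, pat 0 x' y'} (pat 0 x y, pat 0 x y l))
        (fun l => E {pat 0 x y, pat 0 x' y'} (pat 0 x' y', pat 0 x' y' l))
    rw [e1 r, e1 0]
    refine hO.tinv _ _ _ _ ?_
    intro i j
    rcases i with i | i <;> rcases j with j | j
    · exact hS (ι (Sum.inl i)) (ι (Sum.inl j))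
    · exact hS (ι (Sum.inl i)) (ι (Sum.inr j))
    · exact hS (ι (Sum.inr i)) (ι (Sum.inl j))
    · exact hS (ι (Sum.inr i)) (ι (Sum.inr j))
  · intro F
    refine ⟨fun v l => E F (v, v l), ?_, ?_, ?_⟩
    · intro v hv w hw hne l l' h1
      have hk : key code (v, v l) ≠ key code (w, w l') := fun h2 =>
        hne (congrArg Prod.fst (key_inj hc h2))
      have hv' : Nf F (v, v l) := ⟨hv, l, rfl⟩
      have hw' : Nf F (w, w l') := ⟨hw, l', rfl⟩
      rcases lt_or_gt_of_ne hk with h2 | h2
      · exact ((hE F).mono _ _ hv' hw' h2).ne h1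
      · exact ((hE F).mono _ _ hw' hv' h2).ne h1.symm
    · intro v hv w hw l hne
      have h1 := (hE F).col (v, v l) (w, w l) ⟨hv, l, rfl⟩ ⟨hw, l, rfl⟩
        (fun h => hne (congrArg Prod.snd h))
      rw [h1]
      exact if_pos ⟨⟨l, rfl, rfl⟩, hne⟩
    · intro v hv w hw
      refine hO.tinv _ _ _ _ ?_
      have h1 := rl_same hs.col hc (hE {v, w}) (hE F)
        (Sum.elim (fun l => ((v, v l) : Nm V)) (fun l => (w, w l)))
        (Sum.elim (fun l => ((v, v l) : Nm V)) (fun l => (w, w l)))
        (by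
          rintro (l | l)
          · exact ⟨by simp, l, rfl⟩
          · exact ⟨by simp, l, rfl⟩)
        (by
          rintro (l | l)
          · exact ⟨hv, l, rfl⟩
          · exact ⟨hw, l, rfl⟩)
        (fun i j => Iff.rfl) (fun i j => rfl)
      intro i j
      have h2 := h1 i j
      rcases i with i | i <;> rcases j with j | j <;> exact h2

end Pool.Agent.H57.EQD
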