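import Pool.Agent.H57.EQD.Targets

/-!
# Directed colours: systems of points, realization, the injective part
-/

set_option autoImplicit false
set_option linter.unusedVariables false

namespace Pool.Agent.H57.EQD

open Pool.Agent.H68.BP Pool.Agent.H58.SF Pool.Agent.H53.GC Pool.Agent.H53.NR
open Pool.Agent.H57.EQ (Uni TyInv Cx ConstHom Same Olm Tour injS cD Blk SI sigI)
open Function

section

variable {V X : Type} {c : V → V → Option X} {fr : X} {rv : X → X}

theorem c_self (hc : Col c rv) (x : V) : c x x = none := (hc.none_iff x x).2 rfl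

theorem cD_self (hc : Col c rv) (x : V) : cD c fr x x = fr := by
  unfold cD
  rw [c_self hc]
  rfl

theorem c_some (hc : Col c rv) (fr : X) {x y : V} (h : x ≠ y) : c x y = some (cD c fr x y) := by
  unfold cD
  cases hcc : c x y with
  | none => exact absurd ((hc.none_iff x y).1 hcc) h
  | some t => rfl

theorem some_of_cD {x y : V} (h : cD c fr x y ≠ fr) : c x y = some (cD c fr x y) := by
  unfold cD at h ⊢
  cases hxy : c x y with
  | none =>
    rw [hxy] at h
    exact absurd rfl h
  | some t => rfl

theorem cD_swap (hc : Col c rv) (hf : rv fr = fr) (x y : V) : cD c fr y x = rv (cD c fr x y) := by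
  unfold cD
  rw [hc.swap x y]
  cases c x y with
  | none => exact hf.symm
  | some t => rfl

theorem rv_rv (hc : Col c rv) (t : X) : rv (rv t) = t := by
  obtain ⟨x, y, h⟩ := hc.surj t
  have h1 := hc.swap y x
  rw [hc.swap x y, h] at h1
  exact (Option.some_injective _ h1).symm

end

theorem pf_SYS : T_SYS := by
  classical
  intro σ V X _ 𝔸 M c fr rv hs W _ _ u r hr
  have hW : Fintype W := Fintype.ofFinite W
  let e0 : Fin (Fintype.card W) ≃o W := Fintype.orderIsoFinOfCardEq W rfl
  let d : Fin (Fintype.card W) → Fin (Fintype.card W) → X := fun i j =>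
    if r (e0 i) (e0 j) ∧ u (e0 i) ≠ u (e0 j) then (c (u (e0 i)) (u (e0 j))).getD fr else fr
  have hd : ∀ i j, r (e0 i) (e0 j) → u (e0 i) ≠ u (e0 j) →
      c (u (e0 i)) (u (e0 j)) = some (d i j) := by
    intro i j h1 h2
    show c (u (e0 i)) (u (e0 j)) =
      some (if r (e0 i) (e0 j) ∧ u (e0 i) ≠ u (e0 j) then (c (u (e0 i)) (u (e0 j))).getD fr else fr)
    rw [if_pos ⟨h1, h2⟩]
    exact c_some hs.col fr h2
  have hd' : ∀ i j, ¬ (r (e0 i) (e0 j) ∧ u (e0 i) ≠ u (e0 j)) → d i j = fr :=
    fun i j h => if_neg h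
  obtain ⟨f, hf, hf2⟩ := hs.uni _ d (by
    intro m s _ _ h
    refine ⟨fun i => u (e0 (s i)), ?_⟩
    intro i j hij
    have h1 : r (e0 (s i)) (e0 (s j)) ∧ u (e0 (s i)) ≠ u (e0 (s j)) := by
      by_contra h2
      exact h i j hij (hd' _ _ h2)
    exact hd _ _ h1.1 h1.2)
  have key : ∀ n n', n < n' →
      (r n n' → u n ≠ u n' → c (f (e0.symm n)) (f (e0.symm n')) = c (u n) (u n')) ∧
        (¬ (r n n' ∧ u n ≠ u n') → c (f (e0.symm n)) (f (e0.symm n')) = some fr) := by
    intro n n' hn
    have h1 := hf2 (e0.symm n) (e0.symm n') (e0.symm.strictMono hn)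
    refine ⟨?_, ?_⟩
    · intro h2 h3
      have h4 := hd (e0.symm n) (e0.symm n')
      rw [OrderIso.apply_symm_apply, OrderIso.apply_symm_apply] at h4
      rw [h1, h4 h2 h3]
    · intro h2
      have h4 := hd' (e0.symm n) (e0.symm n')
      rw [OrderIso.apply_symm_apply, OrderIso.apply_symm_apply] at h4
      rw [h1, h4 h2]
  refine ⟨fun w => f (e0.symm w), hf.comp e0.symm.strictMono, ?_⟩
  intro n n' hne
  rcases lt_or_gt_of_ne hne with h | h
  · exact key n n' h
  · have h1 := key n' n h
    have h2 := hs.col.swap (f (e0.symm n')) (f (e0.symm n))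
    refine ⟨?_, ?_⟩
    · intro h3 h4
      show c (f (e0.symm n)) (f (e0.symm n')) = _
      rw [h2, h1.1 (hr _ _ h3) (Ne.symm h4)]
      exact (hs.col.swap _ _).symm
    · intro h3
      show c (f (e0.symm n)) (f (e0.symm n')) = _
      rw [h2, h1.2 (fun h5 => h3 ⟨hr _ _ h5.1, Ne.symm h5.2⟩), Option.map_some, hs.free]

/-- realization -/
theorem pf_REA : T_REA := by
  classical
  intro σ V X _ 𝔸 M c fr rv hs W _ q hq
  have h3 := hs.three
  have hc := hs.col
  -- pairs
  have hpair : ∀ u w z : W, ∃ a b d : V, c a b = q u w ∧ c b a = q w u ∧ c a d = q u z ∧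
      c b d = q w z ∧ c d a = q z u ∧ c d b = q z w ∧ c a a = q u u := by
    intro u w z
    obtain ⟨v, hv⟩ := hq (fun i => if (i : ℕ) = 0 then u else if (i : ℕ) = 1 then w else z)
    refine ⟨v ⟨0, by omega⟩, v ⟨1, by omega⟩, v ⟨2, by omega⟩, ?_, ?_, ?_, ?_, ?_, ?_, ?_⟩ <;>
      · rw [hv]
        simp
  have hrefl : ∀ u, q u u = none := by
    intro u
    obtain ⟨a, b, d, -, -, -, -, -, -, h⟩ := hpair u u u
    rw [← h]
    exact c_self hc a
  have hsw : ∀ u w, q w u = (q u w).map rv := by
    intro u w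
    obtain ⟨a, b, d, h1, h2, -⟩ := hpair u w w
    rw [← h1, ← h2]
    exact hc.swap a b
  have hcong : ∀ u w z, q u w = none → q u z = q w z := by
    intro u w z h
    obtain ⟨a, b, d, h1, h2, h3, h4, -⟩ := hpair u w z
    rw [← h1] at h
    have h5 := (hc.none_iff a b).1 h
    rw [← h3, ← h4, h5]
  have hsym : ∀ u w, q u w = none → q w u = none := by
    intro u w h
    rw [hsw u w, h]
    rfl
  have htr : ∀ u w z, q u w = none → q w z = none → q u z = none := by
    intro u w z h1 h2
    rw [hcong u w z h1]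
    exact h2
  let St : Setoid W := ⟨fun u w => q u w = none, hrefl, fun {u w} h => hsym u w h,
    fun {u w z} h1 h2 => htr u w z h1 h2⟩
  let n := Nat.card (Quotient St)
  let e : Quotient St ≃ Fin n := Finite.equivFin _
  let rp : Fin n → W := fun i => (e.symm i).out
  have hrp : ∀ u : W, q (rp (e (Quotient.mk St u))) u = none := by
    intro u
    have h1 : Quotient.mk St (rp (e (Quotient.mk St u))) = Quotient.mk St u := by
      show Quotient.mk St ((e.symm (e (Quotient.mk St u))).out) = _
      rw [e.symm_apply_apply]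
      exact Quotient.out_eq _
    exact Quotient.exact h1
  have hne : ∀ i j, q (rp i) (rp j) = none → i = j := by
    intro i j h
    have h1 : Quotient.mk St (rp i) = Quotient.mk St (rp j) := Quotient.sound h
    have h2 : ∀ i, Quotient.mk St (rp i) = e.symm i := fun i => Quotient.out_eq _
    rw [h2, h2] at h1
    exact e.symm.injective h1
  obtain ⟨f, hf, hfc⟩ := hs.uni n (fun i j => (q (rp i) (rp j)).getD fr) (by
    intro m s hm hsm hnf
    rcases Nat.eq_zero_or_pos m with h0 | hpos
    · subst h0
      exact ⟨fun i => i.elim0, fun i => i.elim0⟩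
    obtain ⟨v, hv⟩ := hq (fun a => rp (s ⟨min (a : ℕ) (m - 1), by omega⟩))
    refine ⟨fun i => v ⟨i, lt_of_lt_of_le i.2 hm⟩, fun i j hij => ?_⟩
    have h1 := hv ⟨i, lt_of_lt_of_le i.2 hm⟩ ⟨j, lt_of_lt_of_le j.2 hm⟩
    have hi : (⟨min (i : ℕ) (m - 1), by omega⟩ : Fin m) = i := Fin.ext (by
      have := i.2
      simp only
      omega)
    have hj : (⟨min (j : ℕ) (m - 1), by omega⟩ : Fin m) = j := Fin.ext (by
      have := j.2
      simp only
      omega)
    simp only [hi, hj] at h1
    rw [h1]
    cases h2 : q (rp (s i)) (rp (s j)) with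
    | none => exact absurd (hne _ _ h2) (hsm hij).ne
    | some t => rfl)
  refine ⟨fun u => f (e (Quotient.mk St u)), fun u w => ?_⟩
  have key : ∀ i j, c (f i) (f j) = q (rp i) (rp j) := by
    intro i j
    have hlt : ∀ i j, i < j → c (f i) (f j) = q (rp i) (rp j) := by
      intro i j hij
      rw [hfc i j hij]
      cases h2 : q (rp i) (rp j) with
      | none => exact absurd (hne _ _ h2) hij.ne
      | some t => rfl
    rcases lt_trichotomy i j with h | h | h
    · exact hlt i j h
    · rw [h, hrefl, c_self hc]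
    · rw [hsw (rp j) (rp i), hc.swap (f j) (f i), hlt j i h]
  rw [key, hcong _ _ _ (hrp u), hsw _ u, hcong _ _ _ (hrp w), ← hsw]

/-- the injective part -/
theorem pf_CPS : T_CPS := by
  intro σ V X _ 𝔸 M c fr rv hs
  have hc := hs.col
  obtain ⟨x0, y0, -⟩ := hc.surj fr
  refine ⟨hs.fin, ⟨x0⟩, by have := hs.three; omega, ⟨fun x y => cD_self hc x,
    fun x y => cD_self hc y, ?_⟩, ?_, ?_⟩
  · intro t
    obtain ⟨x, y, h⟩ := hc.surj t
    refine ⟨x, y, ?_⟩
    unfold cD
    rw [h]
    rfl
  · intro n d hd
    have hdd : ∀ i, d i i = fr := by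
      intro i
      obtain ⟨v, hv⟩ := hd 1 (fun _ => i) (by have := hs.three; omega)
        (fun a b hab => by
          have h1 := a.2
          have h2 := b.2
          have h3 : (a : ℕ) < b := hab
          omega)
        (fun a b hab => by
          have h1 := a.2
          have h2 := b.2
          have h3 : (a : ℕ) < b := hab
          omega)
      rw [← hv 0 0 le_rfl, cD_self hc]
    obtain ⟨f, hf, hfc⟩ := hs.uni n d (by
      intro m s hm hsm hne
      obtain ⟨v, hv⟩ := hd m s hm hsm hne
      refine ⟨v, fun i j hij => ?_⟩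
      have h1 := hv i j hij.le
      have h2 : v i ≠ v j := by
        intro h
        rw [h, cD_self hc] at h1
        exact hne i j hij h1.symm
      rw [c_some hc fr h2, h1])
    refine ⟨f, hf, fun i j hij => ?_⟩
    rcases eq_or_lt_of_le hij with h | h
    · rw [h, cD_self hc, hdd]
    · have h1 := hfc i j h
      have h2 := c_some hc fr (hf h).ne
      rw [h1] at h2
      exact (Option.some_injective _ h2).symm
  · intro l x y hx hxy hxy'
    obtain ⟨hxi, hxA⟩ := hx
    have hyi : Function.Injective y := fun a b h => hxi (hxy' a b h)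
    refine ⟨hyi, hs.tyi _ _ _ hxA fun a b => ?_⟩
    have key : ∀ a b, c (y a) (y b) = c (x a) (x b) := by
      intro a b
      by_cases hab : a = b
      · rw [hab, c_self hc, c_self hc]
      · rw [c_some hc fr (fun h => hab (hyi h)), c_some hc fr (fun h => hab (hxi h))]
        congr 1
        rcases le_total (y a) (y b) with h | h
        · exact hxy a b h
        · rw [cD_swap hc hs.free (y b) (y a), hxy b a h, ← cD_swap hc hs.free]
    exact key _ _

/-- the map on pairs for the injective part -/
theorem pf_BKG : T_BKG := by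
  classical
  intro σ V X _ 𝔸 M c fr rv hS h h' hO hz hb
  refine ⟨?_, fun r x y x' y' => by rw [hb.1]⟩
  intro s k τ v hv hτ
  obtain ⟨e, he1, he2, he3⟩ := hb.2 (Finset.univ.image v)
  have hm : ∀ a, v a ∈ Finset.univ.image v := fun a =>
    Finset.mem_image_of_mem v (Finset.mem_univ a)
  obtain ⟨ψ, hψ1, hψ2⟩ := hO.comb (Fin (arP (sigI σ) M s)) (fun l a => e (v a) l)
  have hψ3 : ∀ a b, c (ψ a) (ψ b) = h' (v a) (v b) := by
    intro a b
    rw [hψ2, he3 _ (hm a) _ (hm b)]
  refine ⟨ψ, ?_, ?_, ?_⟩
  · cases s with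
    | none => trivial
    | some i =>
      have hinj : ∀ l, Injective (fun a => v a l) := fun l => (hv l).1
      refine ⟨?_, ?_⟩
      · intro a b hab
        by_contra hne
        have h1 : v a ≠ v b := fun h2 => hne (hinj 0 (congrFun h2 0))
        have h2 : c (ψ a) (ψ b) = none := (hS.col.none_iff _ _).2 hab
        exact hz _ _ (fun l l' => he1 _ (hm a) _ (hm b) h1 l l') ((hψ2 a b).symm.trans h2)
      · refine hψ1 _ _ fun l => ?_
        refine hS.tyi _ (fun a => v (((Finite.equivFin (SI σ)).symm i).2.2 a) l) _ (hv l).2 ?_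
        intro a b
        by_cases hab : ((Finite.equivFin (SI σ)).symm i).2.2 a =
            ((Finite.equivFin (SI σ)).symm i).2.2 b
        · have h1 : ∀ x : V, c x x = none := fun x => (hS.col.none_iff x x).2 rfl
          simp only [hab, h1]
        · exact he2 _ (hm _) _ (hm _) l fun h1 => hab (hinj l h1)
  · intro a b hab
    have h1 : v a = v b := hτ a b hab
    rw [← hS.col.none_iff, hψ2]
    have h2 : (fun i => e (v a) i) = fun i => e (v b) i := by rw [h1]
    rw [h2, ← hψ2]
    exact (hS.col.none_iff _ _).2 rfl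
  · intro a b
    show (c (ψ a) (ψ b)).getD fr = _
    rw [hψ3]

end Pool.Agent.H57.EQD
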