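import Pool.Agent.H57.EQD.Uv
import Pool.Agent.H68.GC.OLF0
import Pool.Agent.H13.EQ.CYP

/-!
# Directed colours: the cyclic polymorphism of the template
-/

set_option autoImplicit false
set_option linter.unusedVariables false

namespace Pool.Agent.H57.EQD

open Pool.Agent.H68.BP Pool.Agent.H58.SF Pool.Agent.H53.GC Pool.Agent.H53.NR
open Pool.Agent.H57.EQ (Uni TyInv Cx ConstHom Same Olm Tour injS cD Blk SI sigI)
open Pool.Agent.H13.EQ (majF majF_shift majF_not)
open Pool.Agent.H68.GC
open Function

theorem pf_CYP : T_CYP := by
  intro σ V X _ 𝔸 M c fr rv hS p f hp h2 hD G hG hGn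
  classical
  have : NeZero p := ⟨hp.ne_zero⟩
  have hodd : Odd p := hp.odd_of_ne_two (by omega)
  obtain ⟨hcyc, hD2⟩ := hD
  let K : (ZMod p → Ec X) → ZMod p → (X × X) × Bool :=
    fun z j => (G (fun i => z (i + j))).getD ((fr, fr), false)
  refine ⟨fun z => if ∀ i, z i = none then none
    else some ((f (fun j => (K z j).1.1), rv (f (fun j => rv (K z j).1.2))),
      majF (fun j => (K z j).2)), ?_, ?_⟩
  · -- polymorphism
    refine (poly_strOn _ _ _).2 ?_
    intro s q hq
    have hG' := (poly_strOn _ _ _).1 hG
    have hx : ∀ j : ZMod p, FamP 𝔸 M c s (fun e => G (fun i => q (i + j) e)) :=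
      fun j => hG' s (fun i => q (i + j)) (fun i => hq (i + j))
    choose k T hT hkn hks hfam using hx
    have hE : ∀ j a b, k j a = k j b ↔ ∀ i, q i (a, b) = none := by
      intro j a b
      have h1 : (∀ i, q (i + j) (a, b) = none) ↔ ∀ i, q i (a, b) = none := by
        constructor
        · intro h i
          have := h (i - j)
          rwa [sub_add_cancel] at this
        · intro h i
          exact h _
      rw [← h1, ← hGn (fun i => q (i + j) (a, b)), ← hkn j a b]
    -- the labels
    let lab : ZMod p → ℕ → ℕ := fun j v =>
      if h : ∃ a, k 0 a = v then k j (Classical.choose h) else 0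
    have hlab : ∀ j a, lab j (k 0 a) = k j a := by
      intro j a
      have h : ∃ b, k 0 b = k 0 a := ⟨a, rfl⟩
      have h1 : lab j (k 0 a) = k j (Classical.choose h) := dif_pos h
      rw [h1]
      exact (hE j _ _).2 ((hE 0 _ _).1 (Classical.choose_spec h))
    let T' : ℕ → ℕ → Bool := fun v v' =>
      if (∃ a, k 0 a = v) ∧ (∃ a, k 0 a = v') then majF (fun j => T j (lab j v) (lab j v'))
      else decide (v < v')
    have hT' : ∀ a b, T' (k 0 a) (k 0 b) = majF (fun j => T j (k j a) (k j b)) := by
      intro a b
      change (if _ then _ else _) = _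
      rw [if_pos ⟨⟨a, rfl⟩, ⟨b, rfl⟩⟩]
      simp only [hlab]
    have hKs : ∀ a b, ¬ (∀ i, q i (a, b) = none) → ∀ j, ∃ t,
        G (fun i => q (i + j) (a, b)) = some t ∧ K (fun i => q i (a, b)) j = t ∧
          t.2 = T j (k j a) (k j b) := by
      intro a b h j
      have h1 : G (fun i => q (i + j) (a, b)) ≠ none := fun h' => h ((hE j a b).1 ((hkn j a b).1 h'))
      obtain ⟨t, ht⟩ := Option.ne_none_iff_exists'.1 h1
      refine ⟨t, ht, ?_, hks j a b t ht⟩
      change (G (fun i => q (i + j) (a, b))).getD ((fr, fr), false) = _
      rw [ht]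
      rfl
    refine ⟨k 0, T', ?_, ?_, ?_, ?_⟩
    · intro v v' hne
      by_cases h : (∃ a, k 0 a = v) ∧ (∃ a, k 0 a = v')
      · obtain ⟨⟨a, rfl⟩, ⟨b, rfl⟩⟩ := h
        rw [hT', hT', ← majF_not hodd]
        congr 1
        funext j
        exact hT j _ _ (fun h => hne ((hE 0 _ _).2 ((hE j _ _).1 h)))
      · have h' : ¬ ((∃ a, k 0 a = v') ∧ (∃ a, k 0 a = v)) := fun h' => h ⟨h'.2, h'.1⟩
        change (if _ then _ else _) = !(if _ then _ else _)
        rw [if_neg h, if_neg h', ← decide_not, decide_eq_decide, not_lt]
        exact ⟨fun h => h.le, fun h => lt_of_le_of_ne h (Ne.symm hne)⟩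
    · intro a b
      change (if ∀ i, q i (a, b) = none then none else some _) = none ↔ _
      rw [hE 0]
      by_cases h : ∀ i, q i (a, b) = none
      · rw [if_pos h]
        exact ⟨fun _ => h, fun _ => rfl⟩
      · rw [if_neg h]
        exact ⟨fun h' => absurd h' (by simp), fun h' => absurd h' h⟩
    · intro a b t ht
      change (if ∀ i, q i (a, b) = none then none else some _) = some t at ht
      by_cases h : ∀ i, q i (a, b) = none
      · rw [if_pos h] at ht
        exact absurd ht (by simp)
      · rw [if_neg h] at ht
        rw [← Option.some_injective _ ht, hT']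
        change majF (fun j => (K (fun i => q i (a, b)) j).2) = _
        congr 1
        funext j
        obtain ⟨t', h1, h2, h3⟩ := hKs a b h j
        rw [h2, h3]
    · intro rk hrk
      have hex : ∀ j, ∃ x : Fin (arP σ M s) → V, relP 𝔸 M s x ∧
          (∀ a b, x a = x b ↔ k j a = k j b) ∧
          ∀ a b t, G (fun i => q (i + j) (a, b)) = some t →
            c (x a) (x b) = some (if rk a < rk b then t.1.1 else t.1.2) := by
        intro j
        refine hfam j rk fun a b => ?_
        rw [hrk, hE 0, hE j]
      choose x hxR hxk hxc using hex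
      -- the domain
      let W : Type := Set.range (k 0)
      let pr : Fin (arP σ M s) → W := fun a => ⟨k 0 a, a, rfl⟩
      have hpr : ∀ w : W, ∃ a, w = pr a := by
        rintro ⟨v, a, rfl⟩
        exact ⟨a, rfl⟩
      let Gm : ZMod p → W → V := fun j w => x j (Classical.choose w.2)
      have hGm : ∀ j a, Gm j (pr a) = x j a := by
        intro j a
        have h1 : k 0 (Classical.choose (pr a).2) = k 0 a := Classical.choose_spec (pr a).2
        exact (hxk j _ _).2 ((hE j _ _).2 ((hE 0 _ _).1 h1))
      have hGi : ∀ j, Injective (Gm j) := by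
        intro j w w' h
        obtain ⟨a, rfl⟩ := hpr w
        obtain ⟨b, rfl⟩ := hpr w'
        rw [hGm, hGm] at h
        exact Subtype.ext ((hE 0 _ _).2 ((hE j _ _).1 ((hxk j _ _).1 h)))
      let rkW : W → ℕ := fun w => rk (Classical.choose w.2)
      have hrkW : ∀ a, rkW (pr a) = rk a := by
        intro a
        have h1 : k 0 (Classical.choose (pr a).2) = k 0 a := Classical.choose_spec (pr a).2
        exact (hrk _ _).2 h1
      have hrkI : Injective rkW := by
        intro w w' h
        obtain ⟨a, rfl⟩ := hpr w
        obtain ⟨b, rfl⟩ := hpr w'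
        rw [hrkW, hrkW] at h
        exact Subtype.ext ((hrk _ _).1 h)
      obtain ⟨ψ, hψi, hψC, hψc⟩ := hD2 W rkW hrkI Gm hGi
      refine ⟨fun a => ψ (pr a), ?_, ?_, ?_⟩
      · cases s with
        | none => trivial
        | some l =>
          refine hψC l pr ?_
          intro i
          simp only [hGm]
          exact hxR i
      · intro a b
        constructor
        · intro h
          exact congrArg Subtype.val (hψi h)
        · intro h
          have : pr a = pr b := Subtype.ext h
          change ψ (pr a) = ψ (pr b)
          rw [this]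
      · intro a b t ht
        change (if ∀ i, q i (a, b) = none then none else some _) = some t at ht
        by_cases h : ∀ i, q i (a, b) = none
        · rw [if_pos h] at ht
          exact absurd ht (by simp)
        · rw [if_neg h] at ht
          have htt := Option.some_injective _ ht
          choose t' h1 h2 h3 using hKs a b h
          have hK1 : (fun j => (K (fun i => q i (a, b)) j).1.1) = fun j => (t' j).1.1 := by
            funext j
            rw [h2]
          have hK2 : (fun j => rv (K (fun i => q i (a, b)) j).1.2) = fun j => rv (t' j).1.2 := by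
            funext j
            rw [h2]
          have hne : rk a ≠ rk b := fun h' => h ((hE 0 a b).1 ((hrk a b).1 h'))
          rcases lt_or_gt_of_ne hne with hlt | hgt
          · rw [if_pos hlt, ← htt]
            refine hψc (pr a) (pr b) _ (by rw [hrkW, hrkW]; exact hlt) ?_
            intro i
            rw [hGm, hGm, hxc i a b _ (h1 i), if_pos hlt]
            exact congrArg some (congrFun hK1 i).symm
          · have hnlt : ¬ rk a < rk b := not_lt.2 hgt.le
            rw [if_neg hnlt, ← htt]
            have h5 : c (ψ (pr b)) (ψ (pr a)) =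
                some (f (fun j => rv (K (fun i => q i (a, b)) j).1.2)) := by
              refine hψc (pr b) (pr a) _ (by rw [hrkW, hrkW]; exact hgt) ?_
              intro i
              rw [hGm, hGm, hS.col.swap (x i a) (x i b), hxc i a b _ (h1 i), if_neg hnlt]
              exact congrArg some (congrFun hK2 i).symm
            change c (ψ (pr a)) (ψ (pr b)) = _
            rw [hS.col.swap (ψ (pr b)) (ψ (pr a)), h5]
            rfl
  · -- cyclic
    intro z
    have hK : ∀ j, K (fun i => z (i + 1)) j = K z (j + 1) := by
      intro j
      change (G (fun i => z (i + j + 1))).getD ((fr, fr), false) =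
        (G (fun i => z (i + (j + 1)))).getD ((fr, fr), false)
      simp only [add_assoc]
    have h1 : (∀ i, z (i + 1) = none) ↔ ∀ i, z i = none := by
      constructor
      · intro h i
        have := h (i - 1)
        rwa [sub_add_cancel] at this
      · intro h i
        exact h _
    simp only [hK, h1]
    rw [hcyc (fun j => (K z j).1.1), hcyc (fun j => rv (K z j).1.2),
      majF_shift (fun j => (K z j).2)]

end Pool.Agent.H57.EQD
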