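import Pool.Agent.H57.EQD.Asm
import Pool.Agent.H57.EQD.DDX
import Pool.Agent.H57.EQD.CYP
import Pool.Agent.H57.EQ.All

/-!
# Directed colours: the parts
-/

set_option autoImplicit false

namespace Pool.Agent.H57.EQD

open Pool.Agent.H68.BP Pool.Agent.H58.SF Pool.Agent.H53.GC Pool.Agent.H53.NR
open Pool.Agent.H57.EQ (Uni TyInv Cx ConstHom Same Olm Tour injS cD Blk all_SEL all_VAL)
open Function

/-- an Olšák polymorphism of the template of the injective part -/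
theorem all_OLI : ∀ (σ : Sig) (V X : Type) [LinearOrder V] (𝔸 : Str σ V) (M : ℕ)
    (c : V → V → Option X) (fr : X) (rv : X → X), Stp 𝔸 M c fr rv →
    ∀ h, GoodMap (injS 𝔸) M (cD c fr) h →
    HasOlsak (template (injS 𝔸) M (cD c fr)) (template (injS 𝔸) M (cD c fr)) := by
  intro σ V X _ 𝔸 M c fr rv hs h hh
  exact asm_olsak Pool.Agent.H18.GC.pf_COR Pool.Agent.H18.GC.pf_OMG
    (pf_FIN Pool.Agent.H19.BPG.pf_NRM) (Pool.Agent.H68.GC.pf_OLF all_SEL)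
    Pool.Agent.H18.GC.pf_GEO
    (Pool.Agent.H91.GC.pf_MXV all_VAL Pool.Agent.H55.GC.pf_CNS Pool.Agent.H19.BPG.pf_EX)
    (Pool.Agent.H34.BPG.pf_MXP all_VAL Pool.Agent.H55.GC.pf_CNS Pool.Agent.H19.BPG.pf_EX)
    Pool.Agent.H18.GC.pf_LIM Pool.Agent.H69.NR.pf_CA2 Pool.Agent.H44.EQ.all_NR3 pf_CPS hs hh

/-- The template does not pp-construct `K₃`. -/
theorem all_tpl (hNOL : T_NOL) (hNNC : T_NNC) (hGPO : T_GPO) (hBKS : T_BKS)
    {σ : Sig} {V X : Type} [LinearOrder V]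
    {𝔸 : Str σ V} {M : ℕ} {c : V → V → Option X} {fr : X} {rv : X → X} (hs : Stp 𝔸 M c fr rv)
    (hol : Oligo 𝔸) (hK : ¬ PPConstructsK3 𝔸) (hC : ¬ ConstHom 𝔸) :
    ¬ PPConstructsK3 (tpl 𝔸 M c) :=
  asm_tpl hNOL hNNC hBKS pf_BKG all_OLI
    (Pool.Agent.H63.EQM.pf_CYC (Pool.Agent.H3.EQ.pf_CYF Pool.Agent.H58.CT.cyclic_terms
      Pool.Agent.H18.GC.pf_COR)) pf_DDX hGPO Pool.Agent.H37.EQM.pf_ITR pf_CYP
    (Pool.Agent.H88.EQM.pf_NKC all_SEL) hs hol hK hC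

end Pool.Agent.H57.EQD
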