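import Pool.Agent.H57.EQD.Targets
import Pool.Agent.H57.EQ.Asm

/-!
# Structures over directed edge-coloured graphs with free amalgamation: assembly
-/

set_option autoImplicit false

namespace Pool.Agent.H57.EQD

open Pool.Agent.H68.BP Pool.Agent.H58.SF Pool.Agent.H53.GC Pool.Agent.H53.NR
open Pool.Agent.H57.EQ (Uni TyInv Cx ConstHom Same Olm Tour injS cD Blk T_CYC T_NKC)
open Function

/-- an Olšák polymorphism of the template of the injective part -/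
theorem asm_olsak (hCOR : T_COR) (hOMG : T_OMG) (hFIN : T_FIN) (hOLF : T_OLF) (hGEO : T_GEO)
    (hMXV : T_MXV) (hMXP : T_MXP) (hLIM : T_LIM) (hCA2 : T_CA2) (hNR3 : T_NR3) (hCPS : T_CPS)
    {σ : Sig} {V X : Type} [LinearOrder V] {𝔸 : Str σ V} {M : ℕ} {c : V → V → Option X} {fr : X}
    {rv : X → X} (hs : Stp 𝔸 M c fr rv) {h : (Fin 6 → V) → (Fin 6 → V) → X}
    (hh : GoodMap (injS 𝔸) M (cD c fr) h) :
    HasOlsak (template (injS 𝔸) M (cD c fr)) (template (injS 𝔸) M (cD c fr)) := by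
  have hS := hCPS σ V X 𝔸 M c fr rv hs
  have := hS.fin
  have hX : Nonempty X := ⟨fr⟩
  obtain ⟨h', hh', ht⟩ := hCA2 _ V X (injS 𝔸) M (cD c fr) hS.fin (hNR3 V X _ _ M hS.univ)
    hS.split h hh
  refine hLIM _ V X (injS 𝔸) M (cD c fr) hS.fin hX fun k => ?_
  exact hOLF _ _ _ _ (no_selects hCOR hOMG hFIN
    (hGEO _ V X (injS 𝔸) M (cD c fr) _ _ k hS.two hS.typed)
    (hMXV _ V X (injS 𝔸) M (cD c fr) _ _ _ h' hS hh' ht k)
    (hMXP _ V X (injS 𝔸) M (cD c fr) _ _ _ h' hS hh' ht k))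

/-- cyclic functions for all large primes -/
theorem asm_dd (hCYC : T_CYC) (hDDX : T_DDX)
    {σ : Sig} {V X : Type} [LinearOrder V] {𝔸 : Str σ V} {M : ℕ} {c : V → V → Option X} {fr : X}
    {rv : X → X} (hs : Stp 𝔸 M c fr rv)
    (hO : HasOlsak (template (injS 𝔸) M (cD c fr)) (template (injS 𝔸) M (cD c fr))) :
    DdAll 𝔸 c := by
  have := hs.fin
  refine ⟨Nat.card (X × Bool), fun p hp hN => ?_⟩
  obtain ⟨H, h1, h2⟩ := hCYC _ _ _ hO p hp hN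
  exact ⟨_, hDDX σ V X 𝔸 M c fr rv hs p H h1 h2⟩

/-- The template does not pp-construct `K₃`. -/
theorem asm_tpl (hNOL : T_NOL) (hNNC : T_NNC) (hBKS : T_BKS) (hBKG : T_BKG)
    (hOLI : ∀ (σ : Sig) (V X : Type) [LinearOrder V] (𝔸 : Str σ V) (M : ℕ)
      (c : V → V → Option X) (fr : X) (rv : X → X), Stp 𝔸 M c fr rv →
      ∀ h, GoodMap (injS 𝔸) M (cD c fr) h →
      HasOlsak (template (injS 𝔸) M (cD c fr)) (template (injS 𝔸) M (cD c fr)))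
    (hCYC : T_CYC) (hDDX : T_DDX) (hGPO : T_GPO) (hITR : EQ.T_ITR) (hCYP : T_CYP) (hNKC : T_NKC)
    {σ : Sig} {V X : Type} [LinearOrder V] {𝔸 : Str σ V} {M : ℕ} {c : V → V → Option X} {fr : X}
    {rv : X → X} (hs : Stp 𝔸 M c fr rv) (hol : Oligo 𝔸) (hK : ¬ PPConstructsK3 𝔸)
    (hC : ¬ ConstHom 𝔸) : ¬ PPConstructsK3 (tpl 𝔸 M c) := by
  have := hs.fin
  obtain ⟨h, hO⟩ := hNOL σ V X 𝔸 M c fr rv hs hol hK
  obtain ⟨h', hb⟩ := hBKS σ V X 𝔸 M c fr rv hs h hO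
  have hG := hBKG σ V X 𝔸 M c fr rv hs h h' hO (hNNC σ V X 𝔸 M c fr rv hs h hO hC) hb
  have hD : DdAll 𝔸 c := asm_dd hCYC hDDX hs (hOLI σ V X 𝔸 M c fr rv hs _ hG)
  obtain ⟨g, hg1, hg2⟩ := hGPO σ V X 𝔸 M c fr rv hs h hO hC hD
  obtain ⟨N, hN⟩ := hD
  obtain ⟨p, hp1, hp2⟩ := Nat.exists_infinite_primes (N + 3)
  obtain ⟨f, hf⟩ := hN p hp2 (by omega)
  have : Fact p.Prime := ⟨hp2⟩
  have : NeZero p := ⟨hp2.ne_zero⟩
  obtain ⟨G, hG1, hG2⟩ := hITR _ _ (tpl 𝔸 M c) g hg1 hg2 (ZMod p)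
  obtain ⟨u, hu1, hu2⟩ := hCYP σ V X 𝔸 M c fr rv hs p f hp2 (by omega) hf G hG1 hG2
  exact hNKC _ _ _ p u hp2 hu1 hu2

end Pool.Agent.H57.EQD
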