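import Pool.Agent.H57.EQ.Defs

/-!
# Structures over directed edge-coloured graphs with free amalgamation: definitions
-/

set_option autoImplicit false

namespace Pool.Agent.H57.EQD

open Pool.Agent.H68.BP Pool.Agent.H58.SF Pool.Agent.H53.GC
open Pool.Agent.H57.EQ (Uni TyInv Cx ConstHom Same Olm Tour injS cD)
open Function

section defs

variable {V X : Type} {σ : Sig}

/-- `c` is a colouring of the pairs of different elements, `rv` gives the colour of the reversed
pair, and all colours occur. -/
structure Col (c : V → V → Option X) (rv : X → X) : Prop where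
  none_iff : ∀ x y, c x y = none ↔ x = y
  swap : ∀ x y, c y x = (c x y).map rv
  surj : ∀ t, ∃ x y, c x y = some t

/-- the hypotheses; `fr` is the free colour -/
structure Stp [LinearOrder V] (𝔸 : Str σ V) (M : ℕ) (c : V → V → Option X) (fr : X)
    (rv : X → X) : Prop where
  fin : Finite X
  cnt : Countable V
  three : 3 ≤ M
  col : Col c rv
  free : rv fr = fr
  uni : Uni c fr M
  tyi : TyInv 𝔸 c

/-- `f` is cyclic, and injective maps have injective combinations with the colours given by `f` for
the ascending pairs, for each order of the arguments (given by the ranks `rk`). -/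
def Dd (𝔸 : Str σ V) (c : V → V → Option X) (p : ℕ) (f : (ZMod p → X) → X) : Prop :=
  (∀ q : ZMod p → X, f (fun i => q (i + 1)) = f q) ∧
  ∀ (W : Type) [Finite W] (rk : W → ℕ), Injective rk → ∀ (G : ZMod p → W → V),
    (∀ i, Injective (G i)) →
    ∃ ψ : W → V, Injective ψ ∧ Cx 𝔸 G ψ ∧ ∀ (u w : W) (q : ZMod p → X), rk u < rk w →
      (∀ i, c (G i u) (G i w) = some (q i)) → c (ψ u) (ψ w) = some (f q)

/-- for all large primes there are cyclic functions -/
def DdAll (𝔸 : Str σ V) (c : V → V → Option X) : Prop :=
  ∃ N : ℕ, ∀ p : ℕ, p.Prime → N < p → ∃ f, Dd 𝔸 c p f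

/-- The elements of the template: `none` (equality), or a pair of colours (for ascending and for
descending pairs) and a sign. -/
abbrev Ec (X : Type) : Type := Option ((X × X) × Bool)

/-- `q` is the pattern of a family of tuples in the relation `s` of `𝔸` (or of arbitrary tuples of
length `M`): the entries `none` of `q` are the equalities of the labels `k`, the signs are given by
a tournament `T` on the labels, and for each order of the labels (given by the ranks `rk`) there is
a tuple `x` in the relation with the equalities given by `k` such that the colours of its pairs are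
the first colours (for the ascending pairs) and the second colours (for the other pairs) of `q`. -/
def FamP (𝔸 : Str σ V) (M : ℕ) (c : V → V → Option X) (s : Option (Fin σ.m))
    (q : Fin (arP σ M s) × Fin (arP σ M s) → Ec X) : Prop :=
  ∃ (k : Fin (arP σ M s) → ℕ) (T : ℕ → ℕ → Bool), Tour T ∧
    (∀ a b, q (a, b) = none ↔ k a = k b) ∧
    (∀ a b t, q (a, b) = some t → t.2 = T (k a) (k b)) ∧
    ∀ rk : Fin (arP σ M s) → ℕ, (∀ a b, rk a = rk b ↔ k a = k b) →
      ∃ x : Fin (arP σ M s) → V, relP 𝔸 M s x ∧ (∀ a b, x a = x b ↔ k a = k b) ∧
        ∀ a b t, q (a, b) = some t →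
          c (x a) (x b) = some (if rk a < rk b then t.1.1 else t.1.2)

/-- The finite template: for each relation of `𝔸` and for the full relation of arity `M` it has a
relation, which consists of the patterns of the families of tuples in this relation. -/
noncomputable def tpl (𝔸 : Str σ V) (M : ℕ) (c : V → V → Option X) :
    Str (sigOf (Option (Fin σ.m)) (fun s => Fin (arP σ M s) × Fin (arP σ M s))) (Ec X) :=
  strOn (FamP 𝔸 M c)

end defs

end Pool.Agent.H57.EQD
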